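import Mathlib
import Pool.Agent.H261R3.LN.UStmts

/-! Task Line1 of the project LM: dimension one. -/

set_option autoImplicit false

open scoped NNReal ENNReal unitInterval

namespace Pool.Agent.H261R3.LN

namespace Line632

lemma hdist_line (z w : Hyp 0) : hdist z w = |Real.log z.y - Real.log w.y| := by
  have hz := z.pos
  have hw := w.pos
  have h0 : z.x - w.x = 0 := Subsingleton.elim _ _
  unfold hdist
  rw [h0, norm_zero]
  have key : 1 + ((0 : ℝ) ^ 2 + (z.y - w.y) ^ 2) / (2 * z.y * w.y) =
      Real.cosh |Real.log z.y - Real.log w.y| := by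
    rw [Real.cosh_abs, Real.cosh_eq, neg_sub, Real.exp_sub, Real.exp_sub, Real.exp_log hz,
      Real.exp_log hw]
    field_simp
    ring
  rw [key, Real.arcosh_cosh (abs_nonneg _)]

lemma dist_const (a b : ℝ) : dist (fun _ : Fin 1 => a) (fun _ : Fin 1 => b) = |a - b| := by
  rw [dist_pi_const, Real.dist_eq]

end Line632

open Line632

theorem taskLine1 : TaskLine1 := by
  intro S _ p hK
  obtain ⟨C, hC, h⟩ := hK 1
  refine ⟨C, hC, fun F hF => ?_⟩
  obtain ⟨g, hg, hg1⟩ := h (fun v _ => F ⟨0, Real.exp (v 0), Real.exp_pos _⟩)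
    (by
      intro u v v'
      rw [one_mul]
      refine (hF _ _).trans ?_
      rw [hdist_line]
      simp only [Real.log_exp]
      rw [← Real.dist_eq]
      exact dist_le_pi_dist v v' 0)
    (by
      intro v u u'
      rw [Subsingleton.elim u u', dist_self, dist_self, mul_zero])
    (by
      rintro v u ⟨i, _⟩
      exact i.elim0)
  refine ⟨fun t z => g t (fun _ => Real.log z.y) (fun i => i.elim0), ?_, ?_, ?_, ?_⟩
  · intro t z w
    refine (hg.lx t (fun i => i.elim0) (fun _ => Real.log z.y) (fun _ => Real.log w.y)).trans ?_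
    rw [dist_const, hdist_line]
  · intro z
    exact hg.lt _ _
  · intro z
    show g 0 (fun _ => Real.log z.y) (fun i => i.elim0) = F z
    rw [hg.start _ _ (fun i => i.elim0)]
    congr 1
    obtain ⟨x, y, hy⟩ := z
    simp only [Real.exp_log hy, Hyp.mk.injEq, and_true]
    exact Subsingleton.elim _ _
  · intro z
    exact hg1 _ _

end Pool.Agent.H261R3.LN
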